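import Pool.Agent.H97Z.JE.Defs

set_option autoImplicit false

open MeasureTheory ProbabilityTheory Filter Finset
open scoped BigOperators Topology ComplexConjugate

namespace Pool.Agent.H21Z.JE

open Pool.Agent.H97Z.JE

theorem exists_kernel {X : Type} (m : MeasurableSpace X) [mX : MeasurableSpace X]
    [StandardBorelSpace X] (μ : Measure X) [IsProbabilityMeasure μ] (hm : m ≤ mX) :
    ∃ κ : Kernel X X, IsMarkovKernel κ ∧ μ.bind κ = μ ∧
      (∀ T : X → X, MeasurePreserving T μ μ → (∀ s, MeasurableSet[m] s → T ⁻¹' s = s) →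
        ∀ᵐ x ∂μ, (κ x).map T = κ x) ∧
      (∀ f : X → ℝ, Integrable f μ → ∫ x, ∫ y, f y ∂κ x ∂μ = ∫ x, f x ∂μ) ∧
      ∀ φ ψ : X → ℂ, Integrable φ μ → Measurable[m] ψ → (∀ x, ‖ψ x‖ ≤ 1) →
        ∫ x, φ x * ψ x ∂μ = ∫ x, (∫ y, φ y ∂κ x) * ψ x ∂μ := by
  refine ⟨⟨condExpKernel μ m, (condExpKernel μ m).measurable.mono hm le_rfl⟩,
    ⟨fun x => IsMarkovKernel.isProbabilityMeasure (κ := condExpKernel μ m) x⟩, ?_, ?_, ?_, ?_⟩
  · ext s hs
    have h1 := congrArg (fun ν : Measure X => ν s) (condExpKernel_comp_trim (μ := μ) hm)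
    rw [Measure.bind_apply hs (condExpKernel μ m).aemeasurable,
      lintegral_trim hm (measurable_condExpKernel hs)] at h1
    rw [Measure.bind_apply hs (Kernel.aemeasurable _)]
    exact h1
  · intro T hT hinv
    have h1 : condExpKernel μ m =ᵐ[μ.trim hm] (condExpKernel μ m).map T := by
      have := Kernel.IsMarkovKernel.map (condExpKernel μ m) hT.measurable
      refine Kernel.ae_eq_of_compProd_eq ?_
      rw [Measure.compProd_map hT.measurable, compProd_trim_condExpKernel hm]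
      have hd : @Measurable X (X × X) mX (m.prod mX) Function.diag :=
        (measurable_id'' hm).prodMk measurable_id
      have hp : @Measurable (X × X) (X × X) (m.prod mX) (m.prod mX) (Prod.map id T) :=
        measurable_id.prodMap hT.measurable
      rw [Measure.map_map hp hd]
      refine Measure.ext_prod fun {s t} hs ht => ?_
      rw [Measure.map_apply hd (hs.prod ht), Measure.map_apply (hp.comp hd) (hs.prod ht)]
      have e1 : (Function.diag : X → X × X) ⁻¹' s ×ˢ t = s ∩ t := by ext x; simp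
      have e2 : (Prod.map id T ∘ Function.diag : X → X × X) ⁻¹' s ×ˢ t = T ⁻¹' (s ∩ t) := by
        rw [Set.preimage_inter, hinv s hs]
        ext x; simp
      rw [e1, e2, hT.measure_preimage ((hm s hs).inter ht).nullMeasurableSet]
    filter_upwards [ae_of_ae_trim hm h1] with x hx
    rw [Kernel.map_apply _ hT.measurable] at hx
    exact hx.symm
  · intro f hf
    rw [← integral_condExp hm (f := f)]
    exact integral_congr_ae (condExp_ae_eq_integral_condExpKernel hm hf).symm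
  · intro φ ψ hφ hψ hb
    have hi : Integrable (fun x => φ x * ψ x) μ :=
      hφ.mul_bdd (c := 1) (hψ.mono hm le_rfl).aestronglyMeasurable (ae_of_all _ hb)
    have h1 := condExp_bilin_of_stronglyMeasurable_right (ContinuousLinearMap.mul ℝ ℂ)
      (f := φ) (g := ψ) hψ.stronglyMeasurable hi hφ
    rw [← integral_condExp hm (f := fun x => φ x * ψ x)]
    refine integral_congr_ae ?_
    filter_upwards [h1, condExp_ae_eq_integral_condExpKernel hm hφ] with x h2 h3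
    exact h2.trans (by rw [h3]; rfl)

variable {X : Type} [MeasurableSpace X]

theorem B1.int {f : X → ℂ} (h : B1 f) (ν : Measure X) [IsFiniteMeasure ν] : Integrable f ν :=
  Integrable.of_bound h.1.aestronglyMeasurable 1 (ae_of_all _ h.2)

theorem B1.int_sq {f : X → ℂ} (h : B1 f) (ν : Measure X) [IsFiniteMeasure ν] :
    Integrable (fun x => ‖f x‖ ^ 2) ν :=
  Integrable.of_bound (h.1.norm.pow_const 2).aestronglyMeasurable 1 (ae_of_all _ fun x => by
    rw [Real.norm_of_nonneg (by positivity)]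
    exact pow_le_one₀ (norm_nonneg _) (h.2 x))

theorem norm_avg_le (H : ℕ) (a : ℕ → ℂ) : ‖𝔼 b ∈ range H, a b‖ ≤ 𝔼 b ∈ range H, ‖a b‖ :=
  RCLike.norm_expect_le (K := ℂ)

theorem B1.avg {f : X → ℂ} (h : B1 f) {T : ℤ → X → X} (hT : ∀ a, Measurable (T a)) (H : ℕ) :
    B1 fun x => 𝔼 b ∈ range H, f (T b x) := by
  refine ⟨?_, fun x => (norm_avg_le H _).trans ?_⟩
  · simp only [expect_eq_sum_div_card]
    exact (Finset.measurable_sum (f := fun (b : ℕ) x => f (T b x)) _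
      fun b _ => h.1.comp (hT b)).div_const _
  · rcases Nat.eq_zero_or_pos H with rfl | hH
    · simp
    · exact expect_le ⟨0, mem_range.mpr hH⟩ fun b _ => h.2 _

theorem integral_avg {E : Type} [NormedAddCommGroup E] [NormedSpace ℝ E] [CompleteSpace E]
    [Module ℚ≥0 E] (S : Sys X) {f : X → E} (h : Integrable f S.μ) {H : ℕ} (hH : 0 < H)
    (e : ∀ a : ℕ → E, 𝔼 b ∈ range H, a b = (H : ℝ)⁻¹ • ∑ b ∈ range H, a b) :
    ∫ x, 𝔼 b ∈ range H, f (S.T b x) ∂S.μ = ∫ x, f x ∂S.μ := by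
  simp only [e]
  rw [integral_smul, integral_finsetSum (f := fun (b : ℕ) x => f (S.T b x)) _
    fun b _ => (S.mp b).integrable_comp_of_integrable h]
  have : ∀ b ∈ range H, ∫ x, f (S.T b x) ∂S.μ = ∫ x, f x ∂S.μ := by
    intro b _
    rw [← integral_map (S.mp b).measurable.aemeasurable (by
      rw [(S.mp b).map_eq]; exact h.aestronglyMeasurable), (S.mp b).map_eq]
  rw [sum_congr rfl this, sum_const, card_range, ← Nat.cast_smul_eq_nsmul ℝ, smul_smul,
    inv_mul_cancel₀ (by exact_mod_cast hH.ne'), one_smul]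

theorem eC (H : ℕ) (a : ℕ → ℂ) : 𝔼 b ∈ range H, a b = (H : ℝ)⁻¹ • ∑ b ∈ range H, a b := by
  rw [expect_eq_sum_div_card, card_range, Complex.real_smul]
  push_cast
  ring

theorem eR (H : ℕ) (a : ℕ → ℝ) : 𝔼 b ∈ range H, a b = (H : ℝ)⁻¹ • ∑ b ∈ range H, a b := by
  rw [expect_eq_sum_div_card, card_range, smul_eq_mul]
  ring

theorem jensen {f : X → ℂ} (h : B1 f) (ν : Measure X) [IsProbabilityMeasure ν] :
    ‖∫ x, f x ∂ν‖ ^ 2 ≤ ∫ x, ‖f x‖ ^ 2 ∂ν := by
  have h1 : ‖∫ x, f x ∂ν‖ ≤ ∫ x, ‖f x‖ ∂ν := norm_integral_le_integral_norm _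
  have h2 : ∫ x, (2 * ‖∫ x, f x ∂ν‖ * ‖f x‖ - ‖∫ x, f x ∂ν‖ ^ 2) ∂ν ≤ ∫ x, ‖f x‖ ^ 2 ∂ν :=
    integral_mono (((B1.int h ν).norm.const_mul _).sub (integrable_const _)) (B1.int_sq h ν)
      fun x => by nlinarith [sq_nonneg (‖f x‖ - ‖∫ x, f x ∂ν‖)]
  rw [integral_sub ((B1.int h ν).norm.const_mul _) (integrable_const _), integral_const_mul] at h2
  simp only [integral_const, probReal_univ, smul_eq_mul, one_mul] at h2
  nlinarith [norm_nonneg (∫ x, f x ∂ν)]

theorem sq_sub_le {a b : ℂ} (ha : ‖a‖ ≤ 1) (hb : ‖b‖ ≤ 1) : ‖a‖ ^ 2 ≤ ‖b‖ ^ 2 + 2 * ‖a - b‖ := by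
  have h1 := norm_sub_norm_le a b
  have h2 := norm_nonneg a
  have h3 := norm_nonneg b
  have h4 := norm_nonneg (a - b)
  nlinarith

theorem approx (S : Sys X) {G φ : X → ℂ} (hG : B1 G) (hφ : B1 φ) {H : ℕ} (hH : 0 < H) {ε η : ℝ}
    (h1 : ∫ x, ‖G x - φ x‖ ∂S.μ ≤ η)
    (h2 : ∫ x, ‖𝔼 b ∈ range H, φ (S.T b x)‖ ^ 2 ∂S.μ ≤ ‖∫ x, φ x ∂S.μ‖ ^ 2 + ε) :
    ∫ x, ‖𝔼 b ∈ range H, G (S.T b x)‖ ^ 2 ∂S.μ ≤ ‖∫ x, G x ∂S.μ‖ ^ 2 + (ε + 4 * η) := by
  have mT := fun a => (S.mp a).measurable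
  have aG := B1.avg hG mT H
  have aφ := B1.avg hφ mT H
  have iD : Integrable (fun x => ‖G x - φ x‖) S.μ := ((B1.int hG _).sub (B1.int hφ _)).norm
  have iA : Integrable (fun x => 𝔼 b ∈ range H, ‖G (S.T b x) - φ (S.T b x)‖) S.μ := by
    simp only [eR, smul_eq_mul]
    exact (integrable_finsetSum (f := fun (b : ℕ) x => ‖G (S.T b x) - φ (S.T b x)‖) _
      fun b _ => (S.mp b).integrable_comp_of_integrable iD).const_mul _
  have h3 : ∫ x, ‖𝔼 b ∈ range H, G (S.T b x)‖ ^ 2 ∂S.μ ≤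
      ∫ x, (‖𝔼 b ∈ range H, φ (S.T b x)‖ ^ 2 +
        2 * 𝔼 b ∈ range H, ‖G (S.T b x) - φ (S.T b x)‖) ∂S.μ := by
    refine integral_mono (B1.int_sq aG _) ((B1.int_sq aφ _).add (iA.const_mul _)) fun x => ?_
    have a1 := sq_sub_le (aG.2 x) (aφ.2 x)
    have a2 := norm_avg_le H fun b => G (S.T b x) - φ (S.T b x)
    rw [expect_sub_distrib] at a2
    simp only at a1 ⊢
    linarith
  rw [integral_add (B1.int_sq aφ _) (iA.const_mul _), integral_const_mul,
    integral_avg S iD hH (eR H)] at h3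
  have n1 : ∀ f, B1 f → ‖∫ x, f x ∂S.μ‖ ≤ 1 := fun f hf => by
    have := norm_integral_le_of_norm_le_const (μ := S.μ) (ae_of_all _ hf.2)
    simpa using this
  have h4 := sq_sub_le (n1 φ hφ) (n1 G hG)
  have h5 : ‖∫ x, φ x ∂S.μ - ∫ x, G x ∂S.μ‖ ≤ η := by
    rw [norm_sub_rev, ← integral_sub (B1.int hG _) (B1.int hφ _)]
    exact (norm_integral_le_integral_norm _).trans h1
  linarith

theorem ae_small (μ : Measure X) [IsProbabilityMeasure μ] (g : ℕ → X → ℝ)
    (hi : ∀ H, Integrable (g H) μ) (h0 : ∀ H, 0 < H → 0 ≤ᵐ[μ] g H)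
    (h : ∀ ε : ℝ, 0 < ε → ∃ H, 0 < H ∧ ∫ x, g H x ∂μ ≤ ε) :
    ∀ᵐ x ∂μ, ∀ ε : ℝ, 0 < ε → ∃ H, 0 < H ∧ g H x ≤ ε := by
  have key : ∀ k : ℕ, ∀ᵐ x ∂μ, ∃ H, 0 < H ∧ g H x ≤ 1 / (k + 1 : ℝ) := by
    intro k
    rw [ae_iff, ← measureReal_eq_zero_iff]
    refine le_antisymm (le_of_forall_pos_le_add fun δ hδ => ?_) measureReal_nonneg
    have hk : (0 : ℝ) < 1 / (k + 1 : ℝ) := by positivity
    obtain ⟨H, hH, h1⟩ := h (δ * (1 / (k + 1 : ℝ))) (by positivity)
    have h2 := mul_meas_ge_le_integral_of_nonneg (h0 H hH) (hi H) (1 / (k + 1 : ℝ))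
    have h3 : μ.real {a | ¬∃ H, 0 < H ∧ g H a ≤ 1 / (k + 1 : ℝ)} ≤
        μ.real {x | 1 / (k + 1 : ℝ) ≤ g H x} :=
      measureReal_mono fun x hx => le_of_not_ge fun h4 => hx ⟨H, hH, h4⟩
    rw [zero_add]
    refine h3.trans (le_of_mul_le_mul_left ?_ hk)
    linarith
  filter_upwards [ae_all_iff.mpr key] with x hx ε hε
  obtain ⟨k, hk⟩ := exists_nat_one_div_lt hε
  obtain ⟨H, h1, h2⟩ := hx k
  exact ⟨H, h1, h2.trans hk.le⟩

/-- Radial retraction to the unit disc. -/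
noncomputable def cl (z : ℂ) : ℂ := if ‖z‖ ≤ 1 then z else z / (‖z‖ : ℂ)

theorem cl_meas : Measurable cl :=
  Measurable.ite (measurableSet_le measurable_norm measurable_const) measurable_id
    (measurable_id.div (Complex.measurable_ofReal.comp measurable_norm))

theorem cl_le (z : ℂ) : ‖cl z‖ ≤ 1 := by
  unfold cl
  split_ifs with h
  · exact h
  · rw [norm_div, Complex.norm_real, norm_norm, div_self (by linarith)]

theorem cl_sub {w : ℂ} (hw : ‖w‖ ≤ 1) (z : ℂ) : ‖w - cl z‖ ≤ 2 * ‖w - z‖ := by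
  unfold cl
  split_ifs with h
  · linarith [norm_nonneg (w - z)]
  · have h0 : (0 : ℝ) < ‖z‖ := by linarith
    have h1 : z - z / (‖z‖ : ℂ) = ((‖z‖ - 1 : ℝ) : ℂ) * (z / (‖z‖ : ℂ)) := by
      have : (‖z‖ : ℂ) ≠ 0 := by exact_mod_cast h0.ne'
      push_cast
      field_simp
    have h2 : ‖z - z / (‖z‖ : ℂ)‖ = ‖z‖ - 1 := by
      rw [h1, norm_mul, norm_div, Complex.norm_real, Complex.norm_real, norm_norm,
        div_self h0.ne', mul_one, Real.norm_of_nonneg (by linarith)]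
    have h3 := norm_sub_le_norm_sub_add_norm_sub w z (z / (‖z‖ : ℂ))
    have h4 := norm_sub_norm_le z w
    rw [norm_sub_rev z w] at h4
    linarith

theorem exists_dense (X : Type) [TopologicalSpace X] [CompactSpace X]
    [TopologicalSpace.MetrizableSpace X] [MeasurableSpace X] [BorelSpace X] :
    ∃ D : Set (X → ℂ), D.Countable ∧ (∀ φ ∈ D, B1 φ) ∧
      ∀ (ν : Measure X) [IsProbabilityMeasure ν] (G : X → ℂ), B1 G → ∀ η : ℝ, 0 < η →
        ∃ φ ∈ D, ∫ x, ‖G x - φ x‖ ∂ν ≤ η := by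
  let := TopologicalSpace.metrizableSpaceMetric X
  obtain ⟨D, hD, hd⟩ := TopologicalSpace.exists_countable_dense C(X, ℂ)
  refine ⟨(fun (φ : C(X, ℂ)) x => cl (φ x)) '' D, hD.image _, ?_, fun ν _ G hG η hη => ?_⟩
  · rintro _ ⟨φ, -, rfl⟩
    exact ⟨cl_meas.comp φ.continuous.measurable, fun x => cl_le _⟩
  · obtain ⟨g, h1, h2⟩ := (B1.int hG ν).exists_boundedContinuous_integral_sub_le
      (show 0 < η / 4 by positivity)
    obtain ⟨φ, h3, h4⟩ := hd.exists_dist_lt g.toContinuousMap (show 0 < η / 4 by positivity)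
    refine ⟨_, ⟨φ, h3, rfl⟩, ?_⟩
    have hb : B1 fun x => cl (φ x) := ⟨cl_meas.comp φ.continuous.measurable, fun x => cl_le _⟩
    have i1 : Integrable (fun x => ‖G x - g x‖) ν := ((B1.int hG ν).sub h2).norm
    have h5 : ∫ x, ‖G x - cl (φ x)‖ ∂ν ≤ ∫ x, (2 * ‖G x - g x‖ + η / 2) ∂ν := by
      refine integral_mono ((B1.int hG ν).sub (B1.int hb ν)).norm
        ((i1.const_mul _).add (integrable_const _)) fun x => ?_
      have a1 := cl_sub (hG.2 x) (φ x)
      have a2 := norm_sub_le_norm_sub_add_norm_sub (G x) (g x) (φ x)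
      have a3 : ‖g x - φ x‖ ≤ η / 4 := by
        rw [← dist_eq_norm]
        exact (ContinuousMap.dist_apply_le_dist (f := g.toContinuousMap) (g := φ) x).trans h4.le
      simp only
      linarith
    rw [integral_add (i1.const_mul _) (integrable_const _), integral_const_mul] at h5
    simp only [integral_const, probReal_univ, smul_eq_mul, one_mul] at h5
    linarith

theorem thm_dec (he : S_eig) : S_dec := by
  intro X _ _ _ mX _ S _
  have : StandardBorelSpace X := by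
    let := TopologicalSpace.metrizableSpaceMetric X
    infer_instance
  obtain ⟨κ, hκ, k1, k2, k3, k4⟩ := exists_kernel (MeasurableSpace.invariants (S.T 1)) S.μ
    (MeasurableSpace.invariants_le _)
  refine ⟨κ, hκ, k1, ?_⟩
  have mT := fun a => (S.mp a).measurable
  have inv : ∀ᵐ x ∂S.μ, ∀ a, (κ x).map (S.T a) = κ x := by
    refine ae_all_iff.mpr fun a => k2 _ (S.mp a) fun s hs => ?_
    have h1 : ∀ b : ℤ, S.T (b + 1) ⁻¹' s = S.T b ⁻¹' s := by
      intro b
      ext x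
      rw [add_comm, Set.mem_preimage, S.add, ← Set.mem_preimage (f := S.T 1), hs.2]
      rfl
    induction a using Int.induction_on with
    | zero => ext x; simp [S.zero]
    | succ n ih => rw [h1, ih]
    | pred n ih => rw [← h1, sub_add_cancel, ih]
  obtain ⟨D, hD, hB, hd⟩ := exists_dense X
  have key : ∀ φ ∈ D, ∀ᵐ x ∂S.μ, ∀ ε : ℝ, 0 < ε → ∃ H, 0 < H ∧
      ∫ y, ‖𝔼 b ∈ range H, φ (S.T b y)‖ ^ 2 ∂κ x - ‖∫ y, φ y ∂κ x‖ ^ 2 ≤ ε := by
    intro φ hφ
    have hφ := hB φ hφ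
    have bE : B1 fun x => ∫ y, φ y ∂κ x :=
      ⟨hφ.1.stronglyMeasurable.integral_kernel.measurable, fun x => by
        have := norm_integral_le_of_norm_le_const (μ := κ x) (ae_of_all _ hφ.2)
        simpa using this⟩
    have iH : ∀ H, Integrable (fun x => ∫ y, ‖𝔼 b ∈ range H, φ (S.T b y)‖ ^ 2 ∂κ x) S.μ := by
      intro H
      have hA := B1.avg hφ mT H
      refine Integrable.of_bound
        (hA.1.norm.pow_const 2).stronglyMeasurable.integral_kernel.aestronglyMeasurable 1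
        (ae_of_all _ fun x => ?_)
      have := norm_integral_le_of_norm_le_const (μ := κ x) (C := 1)
        (f := fun y => ‖𝔼 b ∈ range H, φ (S.T b y)‖ ^ 2) (ae_of_all _ fun y => by
          rw [Real.norm_of_nonneg (by positivity)]
          exact pow_le_one₀ (norm_nonneg _) (hA.2 y))
      simpa using this
    refine ae_small S.μ _ (fun H => (iH H).sub (B1.int_sq bE _)) (fun H hH => ?_) fun ε hε => ?_
    · filter_upwards [inv] with x hx
      have := jensen (B1.avg hφ mT H) (κ x)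
      rw [integral_avg ⟨κ x, inferInstance, S.T, S.zero, S.add, fun a => ⟨mT a, hx a⟩⟩
        (B1.int hφ _) hH (eC H)] at this
      exact sub_nonneg.mpr this
    · obtain ⟨χ, c1, c2, c3, c4⟩ := he X S 1 1 φ (by simp) hφ
      obtain ⟨H, hH, c5⟩ := c4 ε hε
      refine ⟨H, hH, ?_⟩
      simp only [inv_one, one_pow, one_mul] at c2 c3 c5
      rw [integral_sub (iH H) (B1.int_sq bE _), k3 _ (B1.int_sq (B1.avg hφ mT H) _)]
      have c6 := c3 χ c1 c2
      have cm : Measurable[MeasurableSpace.invariants (S.T 1)] fun x => conj (χ x) :=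
        MeasurableSpace.measurable_invariants_dom.mpr
          ⟨Complex.continuous_conj.measurable.comp c1.1, fun s _ => by
            ext x; simp [c2]⟩
      rw [k4 φ _ (B1.int hφ _) cm fun x => by rw [RCLike.norm_conj]; exact c1.2 x] at c6
      have c7 : ∫ x, χ x * conj (χ x) ∂S.μ = ((∫ x, ‖χ x‖ ^ 2 ∂S.μ : ℝ) : ℂ) := by
        rw [← integral_complex_ofReal]
        refine integral_congr_ae (ae_of_all _ fun x => ?_)
        simp [Complex.mul_conj']
      have c8 : ∫ x, ‖χ x‖ ^ 2 ∂S.μ ≤ ‖∫ x, (∫ y, φ y ∂κ x) * conj (χ x) ∂S.μ‖ := by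
        rw [c6, c7, Complex.norm_real]
        exact le_abs_self _
      have c9 : ‖∫ x, (∫ y, φ y ∂κ x) * conj (χ x) ∂S.μ‖ ≤
          ∫ x, (‖∫ y, φ y ∂κ x‖ ^ 2 + ‖χ x‖ ^ 2) / 2 ∂S.μ := by
        refine norm_integral_le_of_norm_le (((B1.int_sq bE _).add (B1.int_sq c1 _)).div_const _)
          (ae_of_all _ fun x => ?_)
        rw [norm_mul, RCLike.norm_conj]
        nlinarith [sq_nonneg (‖∫ y, φ y ∂κ x‖ - ‖χ x‖)]
      rw [integral_div, integral_add (B1.int_sq bE _) (B1.int_sq c1 _)] at c9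
      linarith
  filter_upwards [inv, (ae_ball_iff hD).mpr key] with x hx hx'
  refine ⟨⟨κ x, inferInstance, S.T, S.zero, S.add, fun a => ⟨mT a, hx a⟩⟩, rfl, rfl,
    fun G hG ε hε => ?_⟩
  obtain ⟨φ, h1, h2⟩ := hd (κ x) G hG (ε / 8) (by positivity)
  obtain ⟨H, h3, h4⟩ := hx' φ h1 (ε / 2) (by positivity)
  refine ⟨H, h3, (approx _ hG (hB φ h1) h3 (ε := ε / 2) h2 (by
    rw [add_comm]; exact sub_le_iff_le_add.mp h4)).trans (le_of_eq (by ring))⟩

end Pool.Agent.H21Z.JE
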